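import Mathlib

namespace Pool.Agent.Results.MP_096971_nt.Unbounded

/-- The base-`b` elated function: leading digit times the sum of the squares of the digits.
`Nat.digits b a` lists the digits from the least significant one, so the last entry is the
leading digit. -/
def elated (b a : ℕ) : ℕ :=
  (Nat.digits b a).getLastD 0 * ((Nat.digits b a).map (fun d => d ^ 2)).sum

/-- `S` is a cycle of the base-`b` elated function. -/
def IsCycle (b : ℕ) (S : Finset ℕ) : Prop :=
  ∃ k : ℕ, 1 ≤ k ∧ ∃ x : ℕ → ℕ, (∀ j, j < k → 0 < x j) ∧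
    (∀ i j, i < k → j < k → x i = x j → i = j) ∧
    (∀ j, j + 1 < k → elated b (x j) = x (j + 1)) ∧
    elated b (x (k - 1)) = x 0 ∧ S = (Finset.range k).image x

def bb (s : ℤ) : ℤ := 10 - 26 * s + 2720 * s ^ 2
def xx (s : ℤ) : ℤ := 9 - 49 * s + 2448 * s ^ 2
def yy (s : ℤ) : ℤ := 8 + 2176 * s ^ 2
def XX (s : ℤ) : ℤ := 26 - 170 * s + 7072 * s ^ 2
def YY (s : ℤ) : ℤ := 31 + 8704 * s ^ 2
def NN (s : ℤ) : ℤ := XX s ^ 2 + YY s ^ 2
def dd (s j : ℤ) : ℤ := 1479680 * j * s - 7072 * (s + j) - 5270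

theorem dd_pos {s j : ℤ} (hs : 1 ≤ s) (hj : 1 ≤ j) : 0 < dd s j := by
  unfold dd
  nlinarith [mul_nonneg (sub_nonneg.mpr hs) (sub_nonneg.mpr hj)]

theorem YY_pos (s : ℤ) : 0 < YY s := by unfold YY; positivity

theorem XX_pos (s : ℤ) (hs : 1 ≤ s) : 0 < XX s := by unfold XX; nlinarith

theorem NN_pos (s : ℤ) : 0 < NN s := by
  unfold NN
  have := YY_pos s
  positivity

theorem point (s j : ℤ) (hj : 1 ≤ j) (hs : j < s) (hd : 2 * NN j ∣ s - j) :
    ∃ A : ℤ, 0 < A ∧ 0 ≤ xx s - A * YY j ∧ xx s - A * YY j < bb s ∧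
      0 ≤ yy s + A * XX j ∧ yy s + A * XX j < bb s ∧
      2 * ((yy s + A * XX j) ^ 2 + (xx s - A * YY j) ^ 2 + 4) =
        (yy s + A * XX j) + bb s * ((xx s - A * YY j) + bb s * 2) := by
  obtain ⟨k, hk⟩ := hd
  have hN := NN_pos j
  have hY := YY_pos j
  have hX := XX_pos j hj
  have hs1 : 1 ≤ s := by omega
  have hD := dd_pos hs1 hj
  have hk0 : 0 < k := by
    by_contra h
    push Not at h
    nlinarith
  have hA : 0 < k * dd s j := mul_pos hk0 hD
  have key : 2 * NN j * (k * dd s j) = (s - j) * dd s j := by rw [hk]; ring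
  have hDle : (s - j) * dd s j ≤ 1479680 * j * s ^ 2 := by
    have h1 : dd s j ≤ 1479680 * j * s := by unfold dd; nlinarith
    have h2 : (s - j) * dd s j ≤ s * dd s j := by nlinarith
    nlinarith
  have hYge : 8704 * j ^ 2 ≤ YY j := by unfold YY; linarith
  have hXle : XX j ≤ YY j := by unfold XX YY; nlinarith
  have hNge : YY j ^ 2 ≤ NN j := by unfold NN; nlinarith
  have hj2 : j ≤ j ^ 2 := by nlinarith
  set A := k * dd s j with hAdef
  -- A * YY j ≤ 85 s^2
  have hAY : A * YY j ≤ 85 * s ^ 2 := by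
    have h1 : 2 * (YY j ^ 2 * A) ≤ 1479680 * j * s ^ 2 := by
      have : YY j ^ 2 * A ≤ NN j * A := mul_le_mul_of_nonneg_right hNge hA.le
      nlinarith
    have h2 : 8704 * j * (A * YY j) ≤ YY j * (A * YY j) :=
      mul_le_mul_of_nonneg_right (by linarith) (mul_pos hA hY).le
    have h3 : (2 * 8704 * j) * (A * YY j) ≤ (2 * 8704 * j) * (85 * s ^ 2) := by nlinarith
    exact le_of_mul_le_mul_left h3 (by positivity)
  have hAX : A * XX j ≤ A * YY j := mul_le_mul_of_nonneg_left hXle hA.le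
  have hAX0 : 0 < A * XX j := mul_pos hA hX
  have hAY0 : 0 < A * YY j := mul_pos hA hY
  refine ⟨A, hA, ?_, ?_, ?_, ?_, ?_⟩
  · unfold xx; nlinarith
  · unfold xx bb; nlinarith
  · unfold yy; positivity
  · unfold yy bb; nlinarith
  · have e : 2 * NN j * A = XX s * YY j - YY s * XX j := by
      rw [key]; unfold dd XX YY; ring
    unfold NN at e
    have e2 : 2 * (yy s ^ 2 + xx s ^ 2 + 4) = yy s + bb s * (xx s + bb s * 2) := by
      unfold yy xx bb; ring
    have e3 : XX s = 4 * xx s - bb s := by unfold XX xx bb; ring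
    have e4 : YY s = 4 * yy s - 1 := by unfold YY yy; ring
    rw [e3, e4] at e
    linear_combination e2 + A * e

theorem chain (M : ℕ) : ∃ (T : Finset ℤ) (s m : ℤ), T.card = M ∧ 1 ≤ s ∧ 0 < m ∧
    ∀ j ∈ T, 1 ≤ j ∧ j < s ∧ 2 * NN j ∣ s - j ∧ 2 * NN j ∣ m := by
  induction M with
  | zero => exact ⟨∅, 1, 1, rfl, le_rfl, one_pos, by simp⟩
  | succ M ih =>
    obtain ⟨T, s, m, hc, hs, hm, h⟩ := ih
    have hN := NN_pos s
    have hm' : 0 < m * (2 * NN s) := by positivity
    refine ⟨insert s T, s + m * (2 * NN s), m * (2 * NN s), ?_, by omega, hm', ?_⟩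
    · rw [Finset.card_insert_of_notMem, hc]
      intro hs'
      exact lt_irrefl _ (h s hs').2.1
    · intro j hj
      rcases Finset.mem_insert.mp hj with rfl | hj
      · refine ⟨hs, by omega, ?_, Dvd.intro_left _ rfl⟩
        rw [add_sub_cancel_left]
        exact Dvd.intro_left _ rfl
      · obtain ⟨h1, h2, h3, h4⟩ := h j hj
        refine ⟨h1, by omega, ?_, Dvd.dvd.mul_right h4 _⟩
        have : s + m * (2 * NN s) - j = (s - j) + m * (2 * NN s) := by ring
        rw [this]
        exact dvd_add h3 (Dvd.dvd.mul_right h4 _)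

theorem digits3 (b x y : ℕ) (hb : 2 < b) (hx : x < b) (hy : y < b) :
    Nat.digits b (y + b * (x + b * 2)) = [y, x, 2] := by
  have h := Nat.digits_ofDigits b (by omega) [y, x, 2] (by simp; omega) (by simp)
  simpa [Nat.ofDigits] using h

theorem fixed (b x y : ℕ) (hb : 2 < b) (hx : x < b) (hy : y < b)
    (h : 2 * (y ^ 2 + x ^ 2 + 4) = y + b * (x + b * 2)) :
    IsCycle b {y + b * (x + b * 2)} := by
  refine ⟨1, le_rfl, fun _ => y + b * (x + b * 2), ?_, ?_, ?_, ?_, by simp⟩
  · intro _ _; positivity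
  · intro i j hi hj _; omega
  · intro j hj; omega
  · unfold elated
    rw [digits3 b x y hb hx hy]
    simp
    omega

theorem result : ∀ M : ℕ, ∃ b : ℕ, 2 ≤ b ∧
    (M : ℕ∞) < {S : Finset ℕ | IsCycle b S}.encard := by
  intro M
  obtain ⟨T, s, m, hc, hs, -, h⟩ := chain (M + 1)
  have hp : ∀ j, j ∈ T → _ := fun j hj => point s j (h j hj).1 (h j hj).2.1 (h j hj).2.2.1
  choose! A hA using hp
  have hb : 2 < bb s := by unfold bb; nlinarith
  set b := (bb s).toNat with hbdef
  have hbb : (b : ℤ) = bb s := Int.toNat_of_nonneg (by omega)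
  let X : ℤ → ℕ := fun j => (xx s - A j * YY j).toNat
  let Y : ℤ → ℕ := fun j => (yy s + A j * XX j).toNat
  have hX : ∀ j ∈ T, (X j : ℤ) = xx s - A j * YY j :=
    fun j hj => Int.toNat_of_nonneg (hA j hj).2.1
  have hY : ∀ j ∈ T, (Y j : ℤ) = yy s + A j * XX j :=
    fun j hj => Int.toNat_of_nonneg (hA j hj).2.2.2.1
  have hXb : ∀ j ∈ T, X j < b := fun j hj => by
    have := hX j hj
    have := (hA j hj).2.2.1
    omega
  have hYb : ∀ j ∈ T, Y j < b := fun j hj => by
    have := hY j hj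
    have := (hA j hj).2.2.2.2.1
    omega
  have hb2 : 2 < b := by omega
  let f : ℤ → Finset ℕ := fun j => {Y j + b * (X j + b * 2)}
  have hf : ∀ j ∈ T, IsCycle b (f j) := by
    intro j hj
    refine fixed b (X j) (Y j) hb2 (hXb j hj) (hYb j hj) ?_
    have := (hA j hj).2.2.2.2.2
    rw [← hX j hj, ← hY j hj, ← hbb] at this
    exact_mod_cast this
  have hinj : Set.InjOn f T := by
    intro i hi j hj hij
    have hi : i ∈ T := hi
    have hj : j ∈ T := hj
    have e := Finset.singleton_injective hij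
    have e' := congrArg (Nat.digits b) e
    rw [digits3 b _ _ hb2 (hXb i hi) (hYb i hi), digits3 b _ _ hb2 (hXb j hj) (hYb j hj)] at e'
    simp only [List.cons.injEq, and_true] at e'
    have e1 : A i * XX i = A j * XX j := by
      have h1 := hY i hi
      have h2 := hY j hj
      rw [e'.1] at h1
      linarith
    have e2 : A i * YY i = A j * YY j := by
      have h1 := hX i hi
      have h2 := hX j hj
      rw [e'.2] at h1
      linarith
    have e3 : A i * ((i - j) * dd i j) = 0 := by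
      have : (i - j) * dd i j = XX i * YY j - YY i * XX j := by unfold dd XX YY; ring
      rw [this]
      linear_combination YY j * e1 - XX j * e2
    have p1 := (hA i hi).1
    have p2 := dd_pos (h i hi).1 (h j hj).1
    rcases mul_eq_zero.mp e3 with h0 | h0
    · omega
    · rcases mul_eq_zero.mp h0 with h0 | h0 <;> omega
  refine ⟨b, by omega, ?_⟩
  have hsub : ((T.image f : Finset (Finset ℕ)) : Set (Finset ℕ)) ⊆ {S | IsCycle b S} := by
    intro S hS
    obtain ⟨j, hj, rfl⟩ := Finset.mem_image.mp hS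
    exact hf j hj
  refine lt_of_lt_of_le ?_ (Set.encard_le_encard hsub)
  rw [Set.encard_coe_eq_coe_finsetCard, Finset.card_image_of_injOn hinj, hc]
  exact_mod_cast Nat.lt_succ_self M

end Pool.Agent.Results.MP_096971_nt.Unbounded
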